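import Pool.Agent.Helper70_ASO.RTYB
import Pool.Agent.ASD.Stmts2

/-!
# Squad ASD, row RTZ: the relation for the triples, with the values at the types which are not products
-/

set_option linter.unusedSectionVars false

open scoped BigOperators

noncomputable section

namespace Pool.Agent.PP.SD.H32

open Pool.Agent.Helper51_AWC Pool.Agent.Helper79_WRA Pool.Agent.PP Pool.Agent.PP.KF
open Pool.Agent.PP.K9 Pool.Agent.PP.K9.H97 Pool.Agent.PP.H75 Pool.Agent.PP.T3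
open Pool.Agent.PP.SO Pool.Agent.PP.SO.H70

theorem inv_mem_Rl {ℓ : ℕ} [Fact ℓ.Prime] {i : ℕ} (hi : ¬ ℓ ∣ i) : (i : ℚ)⁻¹ ∈ SOR.Rl ℓ := by
  have h0 : i ≠ 0 := by
    rintro rfl
    exact hi (dvd_zero _)
  show ¬ ℓ ∣ ((i : ℚ)⁻¹).den
  rw [Rat.inv_natCast_den, if_neg h0]
  exact hi

section np

variable {V₀ : Type} [CommGroup V₀] {ℓ : ℕ} [Fact ℓ.Prime] {ρ : V₀ → ZMod ℓ} {x : V₀ → ℤ}

theorem hm_pow (hρ : Hm ρ) (v : V₀) (j : ℕ) : ρ (v ^ j) = j * ρ v := by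
  induction j with
  | zero =>
    have h1 := hρ 1 1
    rw [mul_one] at h1
    have h2 : ρ 1 = 0 := by
      have h3 : ρ 1 + 0 = ρ 1 + ρ 1 := by rw [add_zero]; exact h1
      exact (add_left_cancel h3).symm
    rw [pow_zero, h2, Nat.cast_zero, zero_mul]
  | succ j ih =>
    rw [pow_succ, hρ, ih, Nat.cast_succ]
    ring

/-- the type -/
def tN (n ℓ : ℕ) (p q : V₀) (i₀ : ℕ) : Set (SO.SS n V₀) :=
  {s | s.2.2.1 = p ^ (s.2.1 : ℕ) ∧ s.2.2.2 = q ^ (s.2.1 : ℕ) ∧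
      (s.1 : ℕ) ≡ i₀ * (s.2.1 : ℕ) [MOD ℓ]}

theorem tN_one {n : ℕ} (hexp : ∀ v : V₀, v ^ ℓ = 1) {p q : V₀} {i₀ : ℕ} (hi : ¬ ℓ ∣ i₀)
    {s : SO.SS n V₀} (hs : s ∈ tN n ℓ p q i₀) (h : (s.1 : ℕ) = 0 ∨ (s.2.1 : ℕ) = 0) :
    s.2.2.1 = 1 ∧ s.2.2.2 = 1 := by
  have hp : ℓ.Prime := Fact.out
  obtain ⟨h1, h2, h3⟩ := hs
  have h4 : ℓ ∣ (s.2.1 : ℕ) := by
    rcases h with h | h
    · rw [h] at h3
      have h5 : ℓ ∣ i₀ * (s.2.1 : ℕ) := (Nat.modEq_zero_iff_dvd).1 h3.symm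
      exact (hp.dvd_mul.1 h5).resolve_left hi
    · rw [h]
      exact dvd_zero _
  obtain ⟨w, hw⟩ := h4
  rw [h1, h2, hw, pow_mul, pow_mul, hexp, hexp, one_pow]
  exact ⟨rfl, rfl⟩

theorem cast_dvd {n : ℕ} (hn : ℓ ∣ n) {a b : ℤ} (h : (a : ZMod n) = b) : (a : ZMod ℓ) = b := by
  rw [ZMod.intCast_eq_intCast_iff] at h ⊢
  exact h.of_dvd (by exact_mod_cast hn)

theorem tN_cong {n : ℕ} (hn : ℓ ∣ n) {ρ₁ ρ₂ : V₀ → ZMod ℓ} {x₁ x₂ : V₀ → ℤ} (hρ₁ : Hm ρ₁)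
    (hρ₂ : Hm ρ₂) (hx₁ : Lf ρ₁ x₁) (hx₂ : Lf ρ₂ x₂) {p q : V₀} {i₀ : ℕ} (hi : ¬ ℓ ∣ i₀)
    {s : SO.SS n V₀} (hs : s ∈ tN n ℓ p q i₀) {k l : ℤ} (hk : ((s.1 : ℕ) : ZMod n) = k)
    (hl : ((s.2.1 : ℕ) : ZMod n) = l) :
    (x₂ s.2.2.2 : ℚ) / ℓ - k * ((x₂ q : ℚ) / (ℓ * i₀)) ∈ SOR.Rl ℓ ∧
      (x₁ s.2.2.1 : ℚ) / ℓ - l * ((x₁ p : ℚ) / ℓ) ∈ SOR.Rl ℓ := by
  have hp : ℓ.Prime := Fact.out
  have hp0 : (ℓ : ℚ) ≠ 0 := by exact_mod_cast hp.ne_zero
  have hi0 : (i₀ : ℚ) ≠ 0 := by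
    intro h
    apply hi
    have h1 : i₀ = 0 := by exact_mod_cast h
    rw [h1]
    exact dvd_zero _
  obtain ⟨h1, h2, h3⟩ := hs
  have hk' : ((s.1 : ℕ) : ZMod ℓ) = (k : ZMod ℓ) := by
    have h := cast_dvd (a := ((s.1 : ℕ) : ℤ)) (b := k) hn (by rw [Int.cast_natCast]; exact hk)
    rwa [Int.cast_natCast] at h
  have hl' : ((s.2.1 : ℕ) : ZMod ℓ) = (l : ZMod ℓ) := by
    have h := cast_dvd (a := ((s.2.1 : ℕ) : ℤ)) (b := l) hn (by rw [Int.cast_natCast]; exact hl)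
    rwa [Int.cast_natCast] at h
  have h3' : ((s.1 : ℕ) : ZMod ℓ) = (i₀ : ZMod ℓ) * ((s.2.1 : ℕ) : ZMod ℓ) := by
    rw [← Nat.cast_mul, ZMod.natCast_eq_natCast_iff]
    exact h3
  constructor
  · have e : (x₂ s.2.2.2 : ℚ) / ℓ - k * ((x₂ q : ℚ) / (ℓ * i₀)) =
        (((x₂ s.2.2.2 * i₀ - k * x₂ q : ℤ) : ℚ) / ℓ) * (i₀ : ℚ)⁻¹ := by
      push_cast
      field_simp
    rw [e]
    refine Subring.mul_mem _ ?_ (inv_mem_Rl hi)
    rw [div_mem_iff]
    push_cast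
    rw [(hx₂ _).1, (hx₂ _).1, h2, hm_pow hρ₂, hl', ← hk', h3', hl']
    ring
  · have e : (x₁ s.2.2.1 : ℚ) / ℓ - l * ((x₁ p : ℚ) / ℓ) =
        ((x₁ s.2.2.1 - l * x₁ p : ℤ) : ℚ) / ℓ := by
      push_cast
      field_simp
    rw [e, div_mem_iff]
    push_cast
    rw [(hx₁ _).1, (hx₁ _).1, h1, hm_pow hρ₁, hl']
    ring

theorem tN_pt {n : ℕ} (hn : ℓ ∣ n) (hn1 : 1 < n) (p q : V₀) (i₀ : ℕ) :
    (Multiplicative.ofAdd (((i₀ : ℕ) : ℤ) : ZMod n), Multiplicative.ofAdd ((1 : ℤ) : ZMod n),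
      (p, q)) ∈ (tr2 '' (tN n ℓ p q i₀) : Set (SOR.L2 n (V₀ × V₀))) := by
  have hlt : i₀ % n < n := Nat.mod_lt _ (by omega)
  refine ⟨(⟨i₀ % n, hlt⟩, ⟨1, hn1⟩, p, q), ⟨?_, ?_, ?_⟩, ?_⟩
  · show p = p ^ 1
    rw [pow_one]
  · show q = q ^ 1
    rw [pow_one]
  · show i₀ % n ≡ i₀ * 1 [MOD ℓ]
    rw [mul_one]
    exact (Nat.mod_modEq i₀ n).of_dvd hn
  · unfold tr2
    show (Multiplicative.ofAdd ((i₀ % n : ℕ) : ZMod n), Multiplicative.ofAdd ((1 : ℕ) : ZMod n),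
      (p, q)) = _
    rw [ZMod.natCast_mod, Nat.cast_one, Int.cast_natCast, Int.cast_one]

/-- the value of a product of two numbers -/
theorem tN_val {a b α β : ℚ} {i₀ : ℕ} (hi : ¬ ℓ ∣ i₀) {u v : ℤ}
    (h1 : (v : ℚ) / ℓ - i₀ * α ∈ SOR.Rl ℓ) (h2 : (u : ℚ) / ℓ - 1 * β ∈ SOR.Rl ℓ) :
    ∃ z ∈ SOR.Rl ℓ, a - b - 12 * (α * β) = a - b - 12 * (u * v) / ((ℓ : ℚ) ^ 2 * i₀) + z / ℓ := by
  have hp : ℓ.Prime := Fact.out
  have hp0 : (ℓ : ℚ) ≠ 0 := by exact_mod_cast hp.ne_zero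
  have hi0 : (i₀ : ℚ) ≠ 0 := by
    intro h
    apply hi
    have h1 : i₀ = 0 := by exact_mod_cast h
    rw [h1]
    exact dvd_zero _
  obtain ⟨s, hs⟩ : ∃ s, s = (v : ℚ) / ℓ - i₀ * α := ⟨_, rfl⟩
  obtain ⟨t, ht⟩ : ∃ t, t = (u : ℚ) / ℓ - 1 * β := ⟨_, rfl⟩
  rw [← hs] at h1
  rw [← ht] at h2
  have e1 : α = ((v : ℚ) / ℓ - s) * (i₀ : ℚ)⁻¹ := by
    rw [hs]
    field_simp
    ring
  have e2 : β = (u : ℚ) / ℓ - t := by
    rw [ht]
    ring
  have h12 : (12 : ℚ) ∈ SOR.Rl ℓ := by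
    have h := int_mem (ℓ := ℓ) 12
    rwa [Int.cast_ofNat] at h
  have hℓ : (ℓ : ℚ) ∈ SOR.Rl ℓ := by
    have h := int_mem (ℓ := ℓ) (ℓ : ℤ)
    rwa [Int.cast_natCast] at h
  refine ⟨12 * (v * t + s * u - ℓ * (s * t)) * (i₀ : ℚ)⁻¹, ?_, ?_⟩
  · exact (SOR.Rl ℓ).mul_mem ((SOR.Rl ℓ).mul_mem h12 ((SOR.Rl ℓ).sub_mem ((SOR.Rl ℓ).add_mem
      ((SOR.Rl ℓ).mul_mem (int_mem v) h2) ((SOR.Rl ℓ).mul_mem h1 (int_mem u)))
      ((SOR.Rl ℓ).mul_mem hℓ ((SOR.Rl ℓ).mul_mem h1 h2)))) (inv_mem_Rl hi)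
  · rw [e1, e2]
    field_simp
    ring

end np

/-- RTZ -/
theorem rtz (hUni : UnjStmt) (hBrx : SOR.BrxStmt) : RtzStmt := by
  classical
  intro ℓ _ V₀ _ _ hexp n ρ₁ ρ₂ hn hρ₁ hρ₂ x₁ x₂ hx₁ hx₂ c d
  obtain ⟨r, hr, hnr⟩ := hn
  have hp : ℓ.Prime := Fact.out
  have hp0 : (ℓ : ℚ) ≠ 0 := by exact_mod_cast hp.ne_zero
  have hn1 : 1 < n := by
    rw [hnr]
    exact Nat.one_lt_pow hr.ne' hp.one_lt
  have hpg : IsPGroup ℓ (V₀ × V₀) := fun v => ⟨1, by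
    rw [pow_one]
    exact Prod.ext (hexp _) (hexp _)⟩
  have hU := hUni ℓ r (V₀ × V₀) hpg
    (fun p => (x₁ p.1 : ℚ) / ℓ) (fun p => (x₂ p.2 : ℚ) / ℓ) (c⁻¹, d⁻¹)
    (fun p p' => lf_add hρ₁ hx₁ _ _) (fun p p' => lf_add hρ₂ hx₂ _ _)
    (fun p => lf_pow hr _) (fun p => lf_pow hr _) (fun p h => lf_zero hx₁ _ h)
    (fun p h => lf_zero hx₂ _ h)
  rw [← hnr] at hU
  obtain ⟨Φ, Ψ, K', hΦ1, hΦ2, hΨ1, hΨ2, hK1, hK2, hK3, hnp, hrel⟩ := hU
  have hz : ∀ v, ρ₁ v = 0 → (x₁ v : ℚ) / ℓ ∈ SOR.Rl ℓ := fun v h => (lf_mem hx₁ v).2 h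
  have hz' : ∀ v, ρ₂ v = 0 → (x₂ v : ℚ) / ℓ ∈ SOR.Rl ℓ := fun v h => (lf_mem hx₂ v).2 h
  refine ⟨fun τ => if Fre τ then -12 * Φ (tr2 '' τ) else 0,
    fun τ => if Fre τ then (x₁ c⁻¹ * x₂ d⁻¹ : ℤ) / (ℓ : ℚ) ^ 2 - K' (tr1 '' (tT τ)) -
      12 * Ψ (tr2 '' τ) else 0,
    fun U => K' (tr1 '' U), ?_, ?_⟩
  · refine ⟨⟨?_, ?_, ?_, ?_, ?_, ?_⟩, ?_⟩
    · intro τ h
      exact ⟨if_neg h, if_neg h⟩
    · intro τ h
      change (if Fre τ then -12 * Φ (tr2 '' τ) else 0) = 0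
      have h1 : Φ (tr2 '' τ) = 0 := by
        rcases h with h | h
        · refine hΦ1 _ ?_
          rintro _ ⟨s, hs, rfl⟩
          exact hz _ (h s hs)
        · refine hΦ2 _ ?_
          rintro _ ⟨s, hs, rfl⟩
          exact hz' _ (h s hs)
      rw [h1, mul_zero, ite_self]
    · intro τ hf h
      change (if Fre τ then (x₁ c⁻¹ * x₂ d⁻¹ : ℤ) / (ℓ : ℚ) ^ 2 - K' (tr1 '' (tT τ)) -
        12 * Ψ (tr2 '' τ) else 0) = _
      have h1 : Ψ (tr2 '' τ) = 0 := by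
        refine hΨ1 _ ?_ ?_
        · rintro _ ⟨s, hs, rfl⟩
          exact hz _ (h s hs).1
        · rintro _ ⟨s, hs, rfl⟩
          exact hz' _ (h s hs).2
      have h2 : K' (tr1 '' (tT τ)) = 0 := by
        refine hK1 _ ?_
        rintro _ ⟨u, ⟨s, hs, _, rfl⟩, rfl⟩
        exact hz _ (h s hs).1
      rw [if_pos hf, h1, h2]
      ring
    · intro τ hf h1 h2
      change (if Fre τ then (x₁ c⁻¹ * x₂ d⁻¹ : ℤ) / (ℓ : ℚ) ^ 2 - K' (tr1 '' (tT τ)) -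
        12 * Ψ (tr2 '' τ) else 0) = _
      have h3 : Ψ (tr2 '' τ) = 0 := by
        refine hΨ2 _ ?_ ?_
        · rintro _ ⟨s, hs, rfl⟩
          obtain ⟨s', hs', h0, he⟩ := h1 s hs
          refine ⟨s', hs', ?_⟩
          unfold tr2
          rw [h0, he, Nat.cast_zero]
          rfl
        · rintro _ ⟨s, hs, rfl⟩ h0
          have h4 : ((s.2.1 : ℕ) : ZMod n) = 0 := Multiplicative.ofAdd.injective h0
          have h5 := h2 s hs ((fin_zero _).1 h4)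
          exact ⟨hz _ h5.1, hz' _ h5.2⟩
      have h4 : tT τ = {u | ∃ s ∈ τ, s.2 = u} := by
        ext u
        constructor
        · rintro ⟨s, hs, _, he⟩
          exact ⟨s, hs, he⟩
        · rintro ⟨s, hs, he⟩
          obtain ⟨s', hs', h0, he'⟩ := h1 s hs
          exact ⟨s', hs', h0, by rw [he', he]⟩
      rw [if_pos hf, h3, h4]
      ring
    · intro U h
      change K' (tr1 '' U) = 0
      rcases h with h | h
      · refine hK1 _ ?_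
        rintro _ ⟨u, hu, rfl⟩
        exact hz _ (h u hu)
      · refine hK2 _ ?_
        rintro _ ⟨u, hu, rfl⟩
        exact hz' _ (h u hu)
    · intro U κ₁ κ₂ h1 h2
      change K' (tr1 '' U) = _
      rw [hK3 (tr1 '' U) (κ₁, κ₂) ?_]
      · push_cast
        field_simp
      · intro p'
        constructor
        · rintro ⟨u, hu, he⟩
          have h3 := Prod.ext_iff.1 he
          have h4 : ((u.1 : ℕ) : ZMod n) = 1 := Multiplicative.ofAdd.injective h3.1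
          have h5 := h2 u hu ((fin_one hn1 _).1 h4)
          have h6 : u.2 = p' := h3.2
          rw [← h6, h5]
        · rintro rfl
          obtain ⟨u, hu, hu1⟩ := h1
          refine ⟨u, hu, ?_⟩
          unfold tr1
          rw [h2 u hu hu1, (fin_one hn1 _).2 hu1]
    · intro p q i₀ hi
      have hln : ℓ ∣ n := by
        rw [hnr]
        exact dvd_pow_self _ hr.ne'
      change ∃ z ∈ SOR.Rl ℓ, (if Fre (tN n ℓ p q i₀) then (x₁ c⁻¹ * x₂ d⁻¹ : ℤ) / (ℓ : ℚ) ^ 2 -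
        K' (tr1 '' (tT (tN n ℓ p q i₀))) - 12 * Ψ (tr2 '' (tN n ℓ p q i₀)) else 0) = _
      have hρ1 : ∀ {ρ : V₀ → ZMod ℓ}, Hm ρ → ρ 1 = 0 := by
        intro ρ h
        have h2 := hm_pow h 1 0
        rwa [pow_zero, Nat.cast_zero, zero_mul] at h2
      have hf : Fre (tN n ℓ p q i₀) := by
        intro s hs h1 _
        exact tN_one hexp hi hs (Or.inl h1)
      have hK : K' (tr1 '' (tT (tN n ℓ p q i₀))) = 0 := by
        refine hK1 _ ?_
        rintro _ ⟨u, ⟨s, hs, h0, rfl⟩, rfl⟩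
        refine hz _ ?_
        show ρ₁ s.2.2.1 = 0
        rw [(tN_one hexp hi hs (Or.inl h0)).1]
        exact hρ1 hρ₁
      have hcg : ∀ (k l : ℤ) (v : V₀ × V₀), (Multiplicative.ofAdd (k : ZMod n),
          Multiplicative.ofAdd (l : ZMod n), v) ∈ (tr2 '' (tN n ℓ p q i₀) : Set _) →
          (x₂ v.2 : ℚ) / ℓ - k * ((x₂ q : ℚ) / (ℓ * i₀)) ∈ SOR.Rl ℓ ∧
            (x₁ v.1 : ℚ) / ℓ - l * ((x₁ p : ℚ) / ℓ) ∈ SOR.Rl ℓ := by
        rintro k l v ⟨s, hs, he⟩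
        have h3 := Prod.ext_iff.1 he
        have h4 := Prod.ext_iff.1 h3.2
        have h5 : s.2.2 = v := h4.2
        rw [← h5]
        exact tN_cong hln hρ₁ hρ₂ hx₁ hx₂ hi hs (Multiplicative.ofAdd.injective h3.1)
          (Multiplicative.ofAdd.injective h4.1)
      obtain ⟨α, β, hΨ, hαβ⟩ := hnp (tr2 '' (tN n ℓ p q i₀)) (by
          rintro _ ⟨s, hs, rfl⟩ h
          have h1 : s.2.2.1 = 1 ∧ s.2.2.2 = 1 := by
            refine tN_one hexp hi hs ?_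
            rcases h with h | h
            · exact Or.inl ((fin_zero _).1 (Multiplicative.ofAdd.injective h))
            · exact Or.inr ((fin_zero _).1 (Multiplicative.ofAdd.injective h))
          refine ⟨hz _ ?_, hz' _ ?_⟩
          · show ρ₁ s.2.2.1 = 0
            rw [h1.1]
            exact hρ1 hρ₁
          · show ρ₂ s.2.2.2 = 0
            rw [h1.2]
            exact hρ1 hρ₂) ⟨(x₂ q : ℚ) / (ℓ * i₀), fun k l v hv => (hcg k l v hv).1⟩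
        ⟨(x₁ p : ℚ) / ℓ, fun k l v hv => (hcg k l v hv).2⟩
      have h1 := hαβ _ _ _ (tN_pt hln hn1 p q i₀)
      rw [if_pos hf, hK, hΨ]
      obtain ⟨z, hz1, hz2⟩ := tN_val (a := (x₁ c⁻¹ * x₂ d⁻¹ : ℤ) / (ℓ : ℚ) ^ 2) (b := 0) (α := α)
        (β := β) hi (u := x₁ p) (v := x₂ q) (by
          have h2 := h1.1
          rwa [Int.cast_natCast] at h2) (by
          have h2 := h1.2
          rwa [Int.cast_one] at h2)
      refine ⟨z, hz1, ?_⟩
      rw [mul_comm α β] at hz2 ⊢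
      rw [hz2, sub_zero]
      push_cast
      rfl
  · intro G _ _ m ι hι hPE P Q hc hd s t hs ht hPs hQt
    obtain ⟨D, _, _, _, _, hTs, ha, ha3, hT, hV⟩ := hBrx G (ι c * s) (ι d * t)
    have hn0 : 0 < n := by omega
    obtain ⟨M, hM1, hM, hMn⟩ := exists_M hPE
    -- centralisers
    have hcomm : ∀ v w : V₀, ι v * ι w = ι w * ι v := fun v w => by
      rw [← map_mul, ← map_mul, mul_comm]
    have hP1 : ∀ p ∈ P, ι p ∈ Subgroup.centralizer ({ι c * s} : Set G) := by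
      intro p hp
      rw [Subgroup.mem_centralizer_iff]
      intro h hh
      rw [Set.mem_singleton_iff] at hh
      rw [hh, mul_assoc, ← hPs p hp, ← mul_assoc, hcomm c p, mul_assoc]
    have hQ1 : ∀ p ∈ Q, ι p ∈ Subgroup.centralizer ({ι d * t} : Set G) := by
      intro p hp
      rw [Subgroup.mem_centralizer_iff]
      intro h hh
      rw [Set.mem_singleton_iff] at hh
      rw [hh, mul_assoc, ← hQt p hp, ← mul_assoc, hcomm d p, mul_assoc]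
    have hs1 : s⁻¹ ∈ Subgroup.centralizer ({ι c * s} : Set G) := by
      refine Subgroup.inv_mem _ ?_
      rw [Subgroup.mem_centralizer_iff]
      intro h hh
      rw [Set.mem_singleton_iff] at hh
      rw [hh, ← mul_assoc, ← hPs c hc]
    have ht1 : t⁻¹ ∈ Subgroup.centralizer ({ι d * t} : Set G) := by
      refine Subgroup.inv_mem _ ?_
      rw [Subgroup.mem_centralizer_iff]
      intro h hh
      rw [Set.mem_singleton_iff] at hh
      rw [hh, ← mul_assoc, ← hQt d hd]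
    obtain ⟨q', hq', hqa, hqb, hqA, hqB, hqT⟩ :=
      hV (Subgroup.centralizer ({ι c * s} : Set G)) (Subgroup.centralizer ({ι d * t} : Set G))
        (fun v hv => (Subgroup.mem_centralizer_iff.1 hv _ rfl).symm)
        (fun v hv => (Subgroup.mem_centralizer_iff.1 hv _ rfl).symm)
    obtain ⟨θ, hθ⟩ : ∃ θ : P.prod Q →* (Subgroup.centralizer ({ι c * s} : Set G)) ×
        (Subgroup.centralizer ({ι d * t} : Set G)),
        ∀ p, θ p = (⟨ι p.1.1, hP1 _ p.2.1⟩, ⟨ι p.1.2, hQ1 _ p.2.2⟩) :=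
      ⟨{ toFun := fun p => (⟨ι p.1.1, hP1 _ p.2.1⟩, ⟨ι p.1.2, hQ1 _ p.2.2⟩)
         map_one' := by
          refine Prod.ext (Subtype.ext ?_) (Subtype.ext ?_)
          · exact map_one ι
          · exact map_one ι
         map_mul' := fun a b => by
          refine Prod.ext (Subtype.ext ?_) (Subtype.ext ?_)
          · exact map_mul ι _ _
          · exact map_mul ι _ _ }, fun p => rfl⟩
    obtain ⟨σ, hσ⟩ : ∃ σ : Equiv.Perm (SOR.Tr G (ι c * s) (ι d * t)),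
      σ = q' (⟨s⁻¹, hs1⟩, ⟨t⁻¹, ht1⟩) := ⟨_, rfl⟩
    have hq : ∀ (p : P.prod Q) z, ((q'.comp θ) p z).1 = (ι p.1.1 * z.1.1 * (ι p.1.1)⁻¹,
        ι p.1.1 * z.1.2.1 * (ι p.1.1)⁻¹, ι p.1.1 * z.1.2.2 * (ι p.1.2)⁻¹) := by
      intro p z
      rw [MonoidHom.comp_apply, hq', hθ]
    have hmem : ∀ g : Equiv.Perm (SOR.Tr G (ι c * s) (ι d * t)),
        (∀ p z, g (q' p z) = q' p (g z)) →
        g ∈ Subgroup.centralizer (Set.range q' : Set (Equiv.Perm _)) := by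
      intro g hg
      rw [Subgroup.mem_centralizer_iff]
      rintro _ ⟨p, rfl⟩
      refine Equiv.ext fun z => ?_
      exact (hg p z).symm
    obtain ⟨D', hD'⟩ : ∃ D' : SOR.Bd (Subgroup.centralizer (Set.range q' : Set (Equiv.Perm _))),
        D' = rst D _ (hmem _ hqa) (hmem _ hqb) (hmem _ hqA) (hmem _ hqB) (hmem _ hqT) :=
      ⟨_, rfl⟩
    obtain ⟨i, hi⟩ : ∃ i : Subgroup.centralizer (Set.range q' : Set (Equiv.Perm _)) →*
        Equiv.Perm (SOR.Tr G (ι c * s) (ι d * t)), i = Subgroup.subtype _ := ⟨_, rfl⟩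
    have hia : i D'.a = D.a := by rw [hi, hD']; rfl
    have hia3 : i D'.a3 = D.a3 := by
      rw [hi, hD']
      rfl
    have hiT : i D'.T = D.T := by
      rw [hi, hD']
      unfold SOR.Bd.T
      rw [map_pow, map_mul]
      rfl
    have hiTs : i D'.Ts = D.Ts := by rw [hi, hD']; rfl
    have hicomm : ∀ g v x, i g (q' v x) = q' v (i g x) := by
      intro g v x
      have h1 := Subgroup.mem_centralizer_iff.1 g.2 (q' v) ⟨v, rfl⟩
      have h2 := Equiv.ext_iff.1 h1 x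
      rw [hi]
      exact h2.symm
    have hXa : SOR.Xa ℓ D' (P.prod Q) ⟨(c⁻¹, d⁻¹), ⟨P.inv_mem hc, Q.inv_mem hd⟩⟩ i
        (q'.comp θ) σ := by
      refine ⟨?_, ?_, ?_, ?_, ?_⟩
      · intro g p x
        exact hicomm g (θ p) x
      · intro g x
        rw [hσ]
        exact hicomm g _ x
      · intro p x
        rw [hσ, MonoidHom.comp_apply, ← Equiv.Perm.mul_apply, ← Equiv.Perm.mul_apply, ← map_mul,
          ← map_mul]
        congr 2
        rw [hθ]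
        have e1 : Commute (ι p.1.1) s⁻¹ := Commute.inv_right (hPs _ p.2.1)
        have e2 : Commute (ι p.1.2) t⁻¹ := Commute.inv_right (hQt _ p.2.2)
        refine Prod.ext (Subtype.ext ?_) (Subtype.ext ?_)
        · exact e1
        · exact e2
      · have h1 : orderOf σ ∣ orderOf s * orderOf t := by
          rw [orderOf_dvd_iff_pow_eq_one, hσ, ← map_pow]
          have h2 : ((⟨s⁻¹, hs1⟩, ⟨t⁻¹, ht1⟩) : (Subgroup.centralizer ({ι c * s} : Set G)) ×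
              (Subgroup.centralizer ({ι d * t} : Set G))) ^ (orderOf s * orderOf t) = 1 := by
            refine Prod.ext (Subtype.ext ?_) (Subtype.ext ?_)
            · change (s⁻¹) ^ (orderOf s * orderOf t) = 1
              rw [inv_pow, pow_mul, pow_orderOf_eq_one, one_pow, inv_one]
            · change (t⁻¹) ^ (orderOf s * orderOf t) = 1
              rw [inv_pow, mul_comm, pow_mul, pow_orderOf_eq_one, one_pow, inv_one]
          rw [h2, map_one]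
        exact Nat.Coprime.coprime_dvd_left h1 (Nat.Coprime.mul_left hs ht)
      · rw [hiTs, hσ]
        refine Equiv.ext fun z => Subtype.ext ?_
        rw [hTs, Equiv.Perm.mul_apply, hq, hq']
        have e1 : ι c * s = s * ι c := hPs c hc
        have e2 : ι d * t = t * ι d := hQt d hd
        have e3 : ι c⁻¹ = (ι c)⁻¹ := map_inv ι c
        have e4 : ι d⁻¹ = (ι d)⁻¹ := map_inv ι d
        simp only [e1, e2, e3, e4]
        refine Prod.ext ?_ (Prod.ext ?_ ?_)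
        · simp only
          group
        · simp only
          group
        · simp only
          group
    have hone : ∀ (x : G) (k : ℤ), x ^ ((M : ℤ) * ((n : ℤ) * k)) = 1 := by
      intro x k
      rw [zpow_mul, zpow_natCast, hM, zpow_mul, zpow_natCast, hMn, one_zpow]
    have h1a : i ((D'.a ^ M) ^ n) = 1 := by
      rw [map_pow, map_pow, hia]
      refine Equiv.ext fun z => Subtype.ext ?_
      have e : (D.a ^ M) ^ n = D.a ^ ((M : ℤ) * ((n : ℤ) * 1)) := by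
        rw [mul_one, zpow_mul, zpow_natCast, zpow_natCast]
      rw [e, ha, hone, mul_one]
      rfl
    have h1a3 : i ((D'.a3 ^ M) ^ n) = 1 := by
      rw [map_pow, map_pow, hia3]
      refine Equiv.ext fun z => Subtype.ext ?_
      have e : (D.a3 ^ M) ^ n = D.a3 ^ ((M : ℤ) * ((n : ℤ) * 1)) := by
        rw [mul_one, zpow_mul, zpow_natCast, zpow_natCast]
      rw [e, ha3, hone, one_mul, one_mul]
      rfl
    have h1T : i ((D'.T ^ M) ^ n) = 1 := by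
      rw [map_pow, map_pow, hiT]
      refine Equiv.ext fun z => Subtype.ext ?_
      have e : (D.T ^ M) ^ n = D.T ^ ((M : ℤ) * ((n : ℤ) * 1)) := by
        rw [mul_one, zpow_mul, zpow_natCast, zpow_natCast]
      have e2 : -((M : ℤ) * ((n : ℤ) * 1)) = (M : ℤ) * ((n : ℤ) * (-1)) := by ring
      rw [e, hT, e2, hone, hone, one_mul, one_mul, mul_one, mul_one]
      rfl
    have hfin : Finite (SOR.Tr G (ι c * s) (ι d * t)) :=
      Finite.of_injective (fun z => z.1) Subtype.val_injective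
    have : Fintype (SOR.Tr G (ι c * s) (ι d * t)) := Fintype.ofFinite _
    have hfin' : Finite (XX (ι c * s) (ι d * t)) :=
      Finite.of_equiv _ (eX (ι c * s) (ι d * t)).symm
    have : Fintype (XX (ι c * s) (ι d * t)) := Fintype.ofFinite _
    have hR := hrel (Subgroup.centralizer (Set.range q' : Set (Equiv.Perm _)))
      (SOR.Tr G (ι c * s) (ι d * t)) D' (P.prod Q) ⟨(c⁻¹, d⁻¹), ⟨P.inv_mem hc, Q.inv_mem hd⟩⟩ rfl i
      (q'.comp θ) σ hXa M hM1 h1a h1a3 h1T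
    refine ⟨_, hR, ?_⟩
    have hcard : (Nat.card (P.prod Q) : ℚ) = Nat.card P * Nat.card Q := by
      rw [Nat.card_congr (Subgroup.prodEquiv P Q).toEquiv, Nat.card_prod]
      push_cast
      ring
    have hcard0 : (Nat.card (P.prod Q) : ℚ) ≠ 0 := by
      exact_mod_cast Nat.card_pos.ne'
    rw [← hcard, mul_div_cancel₀ _ hcard0, finsum_eq_sum_of_fintype, Finset.sum_filter]
    refine Fintype.sum_equiv (eX (ι c * s) (ι d * t)) _ _ ?_
    intro w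
    obtain ⟨z, hz⟩ : ∃ z, z = eX (ι c * s) (ι d * t) w := ⟨_, rfl⟩
    have hzw : z.1 = w.1 := by rw [hz]; rfl
    rw [← hz, ← hzw]
    have i13 := img13 (P := P) (Q := Q) hn0 hq hia hia3 ha ha3 hM hMn z
    have i12 := img12 (P := P) (Q := Q) hn0 hq hia hiT ha hT hM hMn z
    have iT := imgT (P := P) (Q := Q) hn0 hq hia hiT ha hT hM hMn z
    have f13 := free13 (P := P) (Q := Q) (m := m) hn0 hq z
    have f12 := free12 (P := P) (Q := Q) (m := m) hn0 hq z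
    change (if Fre (t13 n m ι P Q (ι c * s) z.1.1 z.1.2.1 z.1.2.2) then
        -12 * Φ (tr2 '' (t13 n m ι P Q (ι c * s) z.1.1 z.1.2.1 z.1.2.2)) else 0) +
      (if Fre (t12 n m ι P Q z.1.1 z.1.2.1 z.1.2.2) then
        (x₁ c⁻¹ * x₂ d⁻¹ : ℤ) / (ℓ : ℚ) ^ 2 -
          K' (tr1 '' (tT (t12 n m ι P Q z.1.1 z.1.2.1 z.1.2.2))) -
          12 * Ψ (tr2 '' (t12 n m ι P Q z.1.1 z.1.2.1 z.1.2.2)) else 0) = _
    rw [i13, i12, iT]
    by_cases hg : z ∈ SOR.Gd (q'.comp θ)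
    · rw [if_pos (f13.2 hg), if_pos (f12.2 hg), if_pos hg]
      push_cast
      field_simp
      ring
    · rw [if_neg (fun h => hg (f13.1 h)), if_neg (fun h => hg (f12.1 h)), if_neg hg, add_zero]

end Pool.Agent.PP.SD.H32
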